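import Pool.Agent.Work.MP_dc7914_al.Main

set_option autoImplicit false

namespace Pool.Agent.Results.MP_dc7914_al.DegreeCongruence

open Pool.Agent.DC7914

/-- Let `B` be a `p`-block of the finite group `G` with abelian defect group `D`, let `b` be its
Brauer correspondent in `N_G(D)`, and suppose that there is a perfect isometry between `B` and `b`
(for instance because they are isotypic). With `γ = |G : N_G(D)|_{p'}`, for every integer `k` the
number of `θ ∈ Irr(B)` with `θ(1)_{p'} ≡ ± γ k` equals the number of `θ ∈ Irr(b)` with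
`θ(1)_{p'} ≡ ± k` modulo `p`. -/
theorem result {p : ℕ} (hp : p.Prime) {G : Type*} [Group G] [Finite G]
    (M : Ideal (integralClosure ℤ ℂ)) (hM : M.IsMaximal) (hpM : (p : integralClosure ℤ ℂ) ∈ M)
    (D : Subgroup G) (hD : ∀ x ∈ D, ∀ y ∈ D, x * y = y * x)
    (B : Set (G → ℂ)) (hB : IsBlock M B) (hBD : IsDefectGroup p M B D)
    (b : Set (Subgroup.normalizer (D : Set G) → ℂ)) (hb : IsBrauerCorrespondent p M D B b)
    (I : (B →₀ ℤ) ≃+ (b →₀ ℤ)) (hI : IsPerfectIsometry p M B b I) (k : ℤ) :
    degCount p B ((ordCompl[p] (Subgroup.normalizer (D : Set G)).index : ℕ) * k) =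
      degCount p b k := by
  have : Fact p.Prime := ⟨hp⟩
  exact degCount_eq hM.isPrime hpM (fun x y => Subtype.ext (hD x x.2 y y.2)) hB hBD hb hI k

end Pool.Agent.Results.MP_dc7914_al.DegreeCongruence
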